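import Mathlib

namespace Pool.Agent.Results.MP_5e4462_co.Q1

open Relation

variable {V : Type}

/-- Directed reachability along arcs of `E`. -/
def Reach (E : Set (V × V)) : V → V → Prop := ReflTransGen (fun a b => (a, b) ∈ E)

/-- Reachability in the underlying undirected graph with the vertex `z` deleted. -/
def UReach (E : Set (V × V)) (z : V) : V → V → Prop :=
  ReflTransGen (fun a b => a ≠ z ∧ b ≠ z ∧ ((a, b) ∈ E ∨ (b, a) ∈ E))

def StronglyBiconnected (E : Set (V × V)) : Prop :=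
  (∀ x y, Reach E x y) ∧ ∀ z x y, x ≠ z → y ≠ z → UReach E z x y

def Minimal (E : Set (V × V)) : Prop :=
  StronglyBiconnected E ∧ ∀ e ∈ E, ¬ StronglyBiconnected (E \ {e})

theorem Reach.mono {E F : Set (V × V)} (h : E ⊆ F) {x y : V} (r : Reach E x y) : Reach F x y := by
  induction r with
  | refl => exact ReflTransGen.refl
  | tail _ e ih => exact ReflTransGen.tail ih (h e)

theorem UReach.mono {E F : Set (V × V)} (h : E ⊆ F) {z x y : V} (r : UReach E z x y) :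
    UReach F z x y := by
  induction r with
  | refl => exact ReflTransGen.refl
  | tail _ e ih =>
    exact ReflTransGen.tail ih ⟨e.1, e.2.1, e.2.2.imp (fun e => h e) (fun e => h e)⟩

theorem UReach.symm {E : Set (V × V)} {z x y : V} (r : UReach E z x y) : UReach E z y x := by
  induction r with
  | refl => exact ReflTransGen.refl
  | tail _ e ih => exact ReflTransGen.head ⟨e.2.1, e.1, e.2.2.symm⟩ ih

inductive Ear (E : Set (V × V)) (S : Set V) (t : V) : Set V → Set (V × V) → V → Prop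
  | base (h : V) : h ∉ S → (h, t) ∈ E → Ear E S t {h} {(h, t)} h
  | step (Q : Set V) (F : Set (V × V)) (y x : V) : Ear E S t Q F y → x ∉ S → x ∉ Q →
      (x, y) ∈ E → Ear E S t (insert x Q) (insert (x, y) F) x

theorem Ear.sub {E : Set (V × V)} {S : Set V} {t : V} {Q F h} (e : Ear E S t Q F h) :
    ∀ q ∈ Q, ∃ Q' F', Ear E S t Q' F' q := by
  induction e with
  | base h h1 h2 => rintro q rfl; exact ⟨_, _, Ear.base _ h1 h2⟩
  | step Q F y x e h1 h2 h3 ih =>
    rintro q (rfl | hq)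
    · exact ⟨_, _, Ear.step Q F y _ e h1 h2 h3⟩
    · exact ih q hq

theorem Ear.props [Finite V] {E : Set (V × V)} {S : Set V} {t : V} (ht : t ∈ S) {Q F h}
    (e : Ear E S t Q F h) :
    h ∈ Q ∧ (∀ q ∈ Q, q ∉ S) ∧ F ⊆ E ∧ F.ncard ≤ Q.ncard ∧
      (∀ q ∈ Q, Reach F h q ∧ Reach F q t) ∧
      ∀ z, ∀ q ∈ Q, q ≠ z → (z ∉ Q → z ≠ t → UReach F z q t) ∧
        ((t ≠ z ∧ UReach F z q t) ∨ (h ≠ z ∧ UReach F z q h)) := by
  induction e with
  | base h h1 h2 =>
    refine ⟨rfl, by rintro q rfl; exact h1, by rintro _ rfl; exact h2, by simp, ?_, ?_⟩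
    · rintro q rfl
      exact ⟨ReflTransGen.refl, ReflTransGen.single rfl⟩
    · rintro z q rfl hq
      exact ⟨fun _ hz => ReflTransGen.single ⟨hq, hz.symm, Or.inl rfl⟩,
        Or.inr ⟨hq, ReflTransGen.refl⟩⟩
  | step Q F y x e h1 h2 h3 ih =>
    obtain ⟨a1, a2, a3, a4, a5, a6⟩ := ih
    have hs : F ⊆ insert (x, y) F := Set.subset_insert _ _
    refine ⟨Or.inl rfl, ?_, Set.insert_subset h3 a3, ?_, ?_, ?_⟩
    · rintro q (rfl | hq)
      · exact h1
      · exact a2 q hq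
    · rw [Set.ncard_insert_of_notMem h2]
      exact (Set.ncard_insert_le _ _).trans (by omega)
    · rintro q (rfl | hq)
      · exact ⟨ReflTransGen.refl, ReflTransGen.head (Or.inl rfl) ((a5 y a1).2.mono hs)⟩
      · exact ⟨ReflTransGen.head (Or.inl rfl) ((a5 q hq).1.mono hs), (a5 q hq).2.mono hs⟩
    · rintro z q (rfl | hq) hz
      · refine ⟨fun n1 n2 => ?_, Or.inr ⟨hz, ReflTransGen.refl⟩⟩
        have hy : y ≠ z := fun e => n1 (Or.inr (e ▸ a1))
        exact ReflTransGen.head ⟨hz, hy, Or.inl (Or.inl rfl)⟩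
          (((a6 z y a1 hy).1 (fun h => n1 (Or.inr h)) n2).mono hs)
      · refine ⟨fun n1 n2 => ((a6 z q hq hz).1 (fun h => n1 (Or.inr h)) n2).mono hs, ?_⟩
        by_cases hx : x = z
        · have hzt : z ≠ t := fun e => h1 (hx ▸ e ▸ ht)
          exact Or.inl ⟨hzt.symm, ((a6 z q hq hz).1 (hx ▸ h2) hzt).mono hs⟩
        · rcases (a6 z q hq hz).2 with ⟨b1, b2⟩ | ⟨b1, b2⟩
          · exact Or.inl ⟨b1, b2.mono hs⟩
          · exact Or.inr ⟨hx, (b2.mono hs).tail ⟨b1, hx, Or.inr (Or.inl rfl)⟩⟩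

/-- `x` outside `S` reaches `t` through vertices outside `S`. -/
def Out (E : Set (V × V)) (S : Set V) (x t : V) : Prop := ∃ Q F, Ear E S t Q F x

theorem Out.step {E : Set (V × V)} {S : Set V} {x y t : V} (hx : x ∉ S) (e : (x, y) ∈ E)
    (h : Out E S y t) : Out E S x t := by
  obtain ⟨Q, F, h⟩ := h
  by_cases hq : x ∈ Q
  · exact h.sub x hq
  · exact ⟨_, _, Ear.step Q F y x h hx hq e⟩

theorem out_ex {E : Set (V × V)} {S : Set V} {x s : V} (r : Reach E x s) (hs : s ∈ S)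
    (hx : x ∉ S) : ∃ t ∈ S, Out E S x t := by
  induction r using ReflTransGen.head_induction_on with
  | refl => exact absurd hs hx
  | @head a b e _ ih =>
    by_cases hb : b ∈ S
    · exact ⟨b, hb, _, _, Ear.base a hx e⟩
    · obtain ⟨t, ht, h⟩ := ih hb
      exact ⟨t, ht, h.step hx e⟩

theorem in_ex {E : Set (V × V)} {S : Set V} {x s : V} (r : Reach E s x) (hs : s ∈ S)
    (hx : x ∉ S) : ∃ s' ∈ S, ∃ h, h ∉ S ∧ (s', h) ∈ E ∧ ∀ t, Out E S x t → Out E S h t := by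
  induction r with
  | refl => exact absurd hs hx
  | @tail a b _ e ih =>
    by_cases ha : a ∈ S
    · exact ⟨a, ha, b, hx, e, fun _ h => h⟩
    · obtain ⟨s', h1, h, h2, h3, h4⟩ := ih ha
      exact ⟨s', h1, h, h2, h3, fun t ht => h4 t (ht.step ha e)⟩

theorem ear_ex {E : Set (V × V)} (hE : StronglyBiconnected E) {S : Set V} {s0 v : V}
    (hs : s0 ∈ S) (hv : v ∉ S) :
    ∃ s ∈ S, ∃ t ∈ S, ∃ h, (s, h) ∈ E ∧ Out E S h t ∧ (s ≠ t ∨ S = {s}) := by
  by_contra hc
  push Not at hc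
  have uniq : ∀ x, x ∉ S → ∀ t ∈ S, ∀ t' ∈ S, Out E S x t → Out E S x t' → t = t' := by
    intro x hx t ht t' ht' o o'
    obtain ⟨s, h1, h, _, h3, h4⟩ := in_ex (hE.1 s0 x) hs hx
    rw [← (hc s h1 t ht h h3 (h4 t o)).1, ← (hc s h1 t' ht' h h3 (h4 t' o')).1]
  obtain ⟨z, hz, oz⟩ := out_ex (hE.1 v s0) hs hv
  obtain ⟨s, h1, h, _, h3, h4⟩ := in_ex (hE.1 s0 v) hs hv
  obtain ⟨e1, e2⟩ := hc s h1 z hz h h3 (h4 z oz)
  subst e1
  obtain ⟨w, hw, hws⟩ : ∃ w ∈ S, w ≠ s := by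
    by_contra hn
    push Not at hn
    exact e2 (Set.eq_singleton_iff_unique_mem.2 ⟨hz, hn⟩)
  have key : ∀ y, UReach E s v y → y ∉ S ∧ Out E S y s := by
    intro y r
    induction r with
    | refl => exact ⟨hv, oz⟩
    | @tail a b _ e ih =>
      obtain ⟨i1, i2⟩ := ih
      by_cases hb : b ∈ S
      · exfalso
        rcases e.2.2 with e' | e'
        · exact e.2.1 (uniq a i1 b hb s hz ⟨_, _, Ear.base a i1 e'⟩ i2)
        · exact e.2.1 (hc b hb s hz a e' i2).1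
      · refine ⟨hb, ?_⟩
        rcases e.2.2 with e' | e'
        · obtain ⟨t, ht, o⟩ := out_ex (hE.1 b s0) hs hb
          rwa [uniq a i1 t ht s hz (o.step i1 e') i2] at o
        · exact i2.step hb e'
  exact (key w (hE.2 s v w (fun e => hv (e ▸ hz)) hws)).1 hw

def Inv (E : Set (V × V)) (S : Set V) (F : Set (V × V)) : Prop :=
  F ⊆ E ∧ F.ncard ≤ 2 * S.ncard ∧ (∀ x ∈ S, ∀ y ∈ S, Reach F x y) ∧
    ∀ z, ∀ x ∈ S, ∀ y ∈ S, x ≠ z → y ≠ z → UReach F z x y

theorem grow [Finite V] {E : Set (V × V)} (hE : StronglyBiconnected E) {S : Set V} {F} {s0 v : V}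
    (hs : s0 ∈ S) (hv : v ∉ S) (hI : Inv E S F) : ∃ S' F', S ⊂ S' ∧ Inv E S' F' := by
  obtain ⟨s, h1, t, h2, h, h3, ⟨Q, G, e⟩, h5⟩ := ear_ex hE hs hv
  obtain ⟨a1, a2, a3, a4, a5, a6⟩ := e.props h2
  obtain ⟨b1, b2, b3, b4⟩ := hI
  have sF : F ⊆ insert (s, h) (F ∪ G) := fun _ h => Or.inr (Or.inl h)
  have sG : G ⊆ insert (s, h) (F ∪ G) := fun _ h => Or.inr (Or.inr h)
  refine ⟨S ∪ Q, insert (s, h) (F ∪ G), ⟨Set.subset_union_left, fun hh => a2 h a1 (hh (Or.inr a1))⟩,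
    Set.insert_subset h3 (Set.union_subset b1 a3), ?_, ?_, ?_⟩
  · rw [Set.ncard_union_eq (Set.disjoint_right.2 a2)]
    have := Set.ncard_insert_le (s, h) (F ∪ G)
    have := Set.ncard_union_le F G
    have := (Set.ncard_pos (Set.toFinite Q)).2 ⟨h, a1⟩
    omega
  · have to_s : ∀ x ∈ S ∪ Q, Reach (insert (s, h) (F ∪ G)) x s := by
      rintro x (hx | hx)
      · exact (b3 x hx s h1).mono sF
      · exact ReflTransGen.trans ((a5 x hx).2.mono sG) ((b3 t h2 s h1).mono sF)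
    have from_s : ∀ x ∈ S ∪ Q, Reach (insert (s, h) (F ∪ G)) s x := by
      rintro x (hx | hx)
      · exact (b3 s h1 x hx).mono sF
      · exact ReflTransGen.head (Or.inl rfl) ((a5 x hx).1.mono sG)
    exact fun x hx y hy => ReflTransGen.trans (to_s x hx) (from_s y hy)
  · intro z
    have : ∃ w, ∀ x ∈ S ∪ Q, x ≠ z → UReach (insert (s, h) (F ∪ G)) z x w := by
      by_cases hz : s = z
      · subst hz
        by_cases hst : s = t
        · subst hst
          refine ⟨h, ?_⟩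
          rintro x (hx | hx) hxz
          · rw [h5.resolve_left (fun h => h rfl)] at hx
            exact absurd hx hxz
          · exact ((a6 s x hx hxz).2.resolve_left (fun h => h.1 rfl)).2.mono sG
        · refine ⟨t, ?_⟩
          rintro x (hx | hx) hxz
          · exact (b4 s x hx t h2 hxz (Ne.symm hst)).mono sF
          · exact ((a6 s x hx hxz).1 (fun h => a2 s h h1) hst).mono sG
      · refine ⟨s, ?_⟩
        rintro x (hx | hx) hxz
        · exact (b4 z x hx s h1 hxz hz).mono sF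
        · rcases (a6 z x hx hxz).2 with ⟨c1, c2⟩ | ⟨c1, c2⟩
          · exact ReflTransGen.trans (c2.mono sG) ((b4 z t h2 s h1 c1 hz).mono sF)
          · exact (c2.mono sG).tail ⟨c1, hz, Or.inr (Or.inl rfl)⟩
    obtain ⟨w, hw⟩ := this
    exact fun x hx y hy hxz hyz => ReflTransGen.trans (hw x hx hxz) (hw y hy hyz).symm

theorem full [Finite V] {E : Set (V × V)} (hE : StronglyBiconnected E) :
    ∀ (k : ℕ) (S : Set V) F, Sᶜ.ncard ≤ k → S.Nonempty → Inv E S F → ∃ F', Inv E Set.univ F' := by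
  intro k
  induction k with
  | zero =>
    intro S F hk _ hI
    have : Sᶜ = ∅ := (Set.ncard_eq_zero (Set.toFinite _)).1 (by omega)
    rw [Set.compl_empty_iff] at this
    exact ⟨F, this ▸ hI⟩
  | succ k ih =>
    intro S F hk ⟨s, hs⟩ hI
    by_cases hu : S = Set.univ
    · exact ⟨F, hu ▸ hI⟩
    · obtain ⟨v, hv⟩ := (Set.ne_univ_iff_exists_notMem S).1 hu
      obtain ⟨S', F', h1, h2⟩ := grow hE hs hv hI
      have := Set.ncard_lt_ncard (compl_lt_compl_iff_lt.2 h1 : S'ᶜ ⊂ Sᶜ)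
      exact ih S' F' (by omega) ⟨s, h1.1 hs⟩ h2

theorem result (V : Type) [Finite V] (E : Set (V × V)) (_hloop : ∀ v, (v, v) ∉ E)
    (hE : Minimal E) : E.ncard ≤ 2 * Nat.card V := by
  rcases isEmpty_or_nonempty V with hV | ⟨⟨s⟩⟩
  · simp [Set.eq_empty_of_isEmpty E]
  obtain ⟨F, h1, h2, h3, h4⟩ := full hE.1 _ {s} ∅ le_rfl ⟨s, rfl⟩
    ⟨Set.empty_subset _, by simp, by rintro x rfl y rfl; exact ReflTransGen.refl,
      by rintro z x rfl y rfl _ _; exact ReflTransGen.refl⟩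
  have : E ⊆ F := by
    intro e he
    by_contra hn
    have hs : F ⊆ E \ {e} := fun f hf => ⟨h1 hf, fun h => hn (h ▸ hf)⟩
    exact hE.2 e he ⟨fun x y => (h3 x trivial y trivial).mono hs,
      fun z x y hx hy => (h4 z x trivial y trivial hx hy).mono hs⟩
  rw [Set.ncard_univ] at h2
  exact (Set.ncard_le_ncard this).trans h2

end Pool.Agent.Results.MP_5e4462_co.Q1
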